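import Pool.Agent.H547.V1.Stm

/-!
# The main factor as a product of local factors
-/

set_option autoImplicit false

namespace Pool.Agent.H196.SUN35.A2

open Finset Pool.Agent.H547.V1
open scoped Nat

/-- the product of the numbers prime to `p` up to `n` -/
def F (p n : ℕ) : ℚ := ∏ m ∈ range (n + 1), if p ∣ m then (1 : ℚ) else (m : ℚ)

/-- the product of the multiples of three prime to `p` below `n` -/
def P (p n : ℕ) : ℚ := ∏ m ∈ range n, if 3 ∣ m ∧ ¬ p ∣ m then (m : ℚ) else 1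

theorem F_ne {p : ℕ} (n : ℕ) : F p n ≠ 0 := by
  unfold F
  refine prod_ne_zero_iff.2 fun m _ => ?_
  split_ifs with h
  · exact one_ne_zero
  · intro h0
    have : m = 0 := by exact_mod_cast h0
    subst this
    exact h (dvd_zero p)

theorem fact_eq {p : ℕ} (n : ℕ) :
    (n ! : ℚ) = (p : ℚ) ^ (n / p) * ((n / p)! : ℚ) * F p n := by
  induction n with
  | zero => simp [F]
  | succ n ih =>
    have hF : F p (n + 1) = F p n * (if p ∣ n + 1 then (1 : ℚ) else ((n + 1 : ℕ) : ℚ)) := by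
      unfold F; rw [prod_range_succ]
    rw [Nat.factorial_succ, Nat.cast_mul, ih, hF, Nat.succ_div]
    by_cases h : p ∣ n + 1
    · rw [if_pos h, if_pos h, mul_one, Nat.factorial_succ, pow_succ]
      have h1 : (n / p + 1) = (n + 1) / p := by rw [Nat.succ_div, if_pos h]
      have h2 : p * (n / p + 1) = n + 1 := by rw [h1]; exact Nat.mul_div_cancel' h
      have h3 : ((n + 1 : ℕ) : ℚ) = p * ((n / p + 1 : ℕ) : ℚ) := by
        rw [← Nat.cast_mul, h2]
      rw [h3]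
      push_cast
      ring
    · rw [if_neg h, if_neg h, add_zero]
      ring

theorem P_eq {p : ℕ} (hp : p.Prime) (h3 : 3 < p) (n : ℕ) :
    P p (n + 1) * (3 : ℚ) ^ (n / 3 / p) = (3 : ℚ) ^ (n / 3) * F p (n / 3) := by
  have hcop : Nat.Coprime p 3 := by
    rw [Nat.coprime_primes hp Nat.prime_three]; omega
  induction n with
  | zero => simp [F, P]
  | succ n ih =>
    have hP : P p (n + 1 + 1) = P p (n + 1) *
        (if 3 ∣ n + 1 ∧ ¬ p ∣ n + 1 then ((n + 1 : ℕ) : ℚ) else 1) := by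
      unfold P; rw [prod_range_succ]
    rw [hP]
    by_cases h : 3 ∣ n + 1
    · have hd : (n + 1) / 3 = n / 3 + 1 := by rw [Nat.succ_div, if_pos h]
      have hm : n + 1 = 3 * (n / 3 + 1) := by rw [← hd]; exact (Nat.mul_div_cancel' h).symm
      have hpd : p ∣ n + 1 ↔ p ∣ n / 3 + 1 := by
        rw [hm]
        constructor
        · intro h'
          exact hcop.dvd_of_dvd_mul_left h'
        · intro h'
          exact h'.mul_left 3
      rw [hd]
      have hF : F p (n / 3 + 1) = F p (n / 3) *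
          (if p ∣ n / 3 + 1 then (1 : ℚ) else ((n / 3 + 1 : ℕ) : ℚ)) := by
        unfold F; rw [prod_range_succ]
      rw [hF]
      by_cases hp1 : p ∣ n / 3 + 1
      · have hp2 : p ∣ n + 1 := hpd.2 hp1
        rw [if_neg (by tauto), if_pos hp1, Nat.succ_div, if_pos hp1, mul_one, mul_one, pow_succ,
          ← mul_assoc, ih, pow_succ]
        ring
      · have hp2 : ¬ p ∣ n + 1 := fun h' => hp1 (hpd.1 h')
        rw [if_pos ⟨h, hp2⟩, if_neg hp1, Nat.succ_div, if_neg hp1, add_zero, pow_succ]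
        have e : ((n + 1 : ℕ) : ℚ) = 3 * ((n / 3 + 1 : ℕ) : ℚ) := by
          rw [← Nat.cast_ofNat (n := 3), ← Nat.cast_mul, ← hm]
        rw [e]
        linear_combination (3 * ((n / 3 + 1 : ℕ) : ℚ)) * ih
    · have hd : (n + 1) / 3 = n / 3 := by rw [Nat.succ_div, if_neg h, add_zero]
      rw [hd, if_neg (by tauto), mul_one]
      exact ih

theorem prod_blocks (f : ℕ → ℚ) (N s : ℕ) :
    ∏ m ∈ range (s * N), f m = ∏ t ∈ range s, ∏ j ∈ range N, f (t * N + j) := by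
  induction s with
  | zero => simp
  | succ s ih =>
    rw [Nat.succ_mul, prod_range_add, ih, prod_range_succ]

/-- the numbers below `N` prime to `p` -/
def J (p N : ℕ) : Finset ℕ := (range N).filter (fun j => ¬ p ∣ j)

/-- the product of the `t`-th block -/
def A (p N t : ℕ) : ℚ := ∏ j ∈ J p N, ((t * N + j : ℕ) : ℚ)

/-- the factors of the `t`-th block which are divisible by three -/
def b (N t j : ℕ) : ℚ := if 3 ∣ t * N + j then ((t * N + j : ℕ) : ℚ) else 1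

/-- the product of the multiples of three in the `t`-th block -/
def B (p N t : ℕ) : ℚ := ∏ j ∈ J p N, b N t j

theorem F_block {p N : ℕ} (hN : p ∣ N) (s : ℕ) : F p (s * N) = ∏ t ∈ range s, A p N t := by
  unfold F A J
  rw [prod_range_succ, if_pos (hN.mul_left s), mul_one, prod_blocks]
  refine prod_congr rfl fun t _ => ?_
  rw [prod_filter]
  refine prod_congr rfl fun j _ => ?_
  have : p ∣ t * N + j ↔ p ∣ j := (Nat.dvd_add_right (hN.mul_left t))
  by_cases h : p ∣ j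
  · rw [if_pos (this.2 h), if_neg (not_not.2 h)]
  · rw [if_neg (fun h' => h (this.1 h')), if_pos h]

theorem P_block {p N : ℕ} (hN : p ∣ N) (s : ℕ) : P p (s * N + 1) = ∏ t ∈ range s, B p N t := by
  unfold P B J
  rw [prod_range_succ, if_neg (fun h => h.2 (hN.mul_left s)), mul_one, prod_blocks]
  refine prod_congr rfl fun t _ => ?_
  rw [prod_filter]
  refine prod_congr rfl fun j _ => ?_
  have : p ∣ t * N + j ↔ p ∣ j := (Nat.dvd_add_right (hN.mul_left t))
  unfold b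
  by_cases h : p ∣ j
  · rw [if_neg (fun h' => h'.2 (this.2 h)), if_neg (not_not.2 h)]
  · rw [if_pos h]
    by_cases h3 : 3 ∣ t * N + j
    · rw [if_pos ⟨h3, fun h' => h (this.1 h')⟩, if_pos h3]
    · rw [if_neg (fun h' => h3 h'.1), if_neg h3]

theorem xf_eq {N j : ℕ} (hN : ¬ 3 ∣ N) (hj : 0 < j) :
    xf N j = ((1 * N + j : ℕ) : ℚ) * ((2 * N + j : ℕ) : ℚ) * ((3 * N + j : ℕ) : ℚ) /
      (b N 0 j * b N 1 j ^ 2 * b N 2 j ^ 3 * b N 3 j ^ 2 * b N 4 j) := by
  have hj' : (j : ℚ) ≠ 0 := by exact_mod_cast hj.ne'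
  have hj0 : (0 : ℚ) < j := by exact_mod_cast hj
  have hN0 : (0 : ℚ) ≤ N := Nat.cast_nonneg _
  have e1 : (N : ℚ) + j ≠ 0 := by positivity
  have e2 : 2 * (N : ℚ) + j ≠ 0 := by positivity
  have e3 : 3 * (N : ℚ) + j ≠ 0 := by positivity
  have e4 : 4 * (N : ℚ) + j ≠ 0 := by positivity
  unfold xf b
  by_cases h0 : j % 3 = 0
  · rw [if_pos h0, if_pos (show 3 ∣ 0 * N + j by omega), if_neg (show ¬ 3 ∣ 1 * N + j by omega),
      if_neg (show ¬ 3 ∣ 2 * N + j by omega), if_pos (show 3 ∣ 3 * N + j by omega),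
      if_neg (show ¬ 3 ∣ 4 * N + j by omega)]
    push_cast
    have e1' : (j : ℚ) + 3 * N ≠ 0 := by positivity
    have e3' : 1 + 3 * ((N : ℚ) / j) ≠ 0 := by positivity
    field_simp
    ring
  · by_cases h1 : (j + N) % 3 = 0
    · rw [if_neg h0, if_pos h1, if_neg (show ¬ 3 ∣ 0 * N + j by omega),
        if_pos (show 3 ∣ 1 * N + j by omega), if_neg (show ¬ 3 ∣ 2 * N + j by omega),
        if_neg (show ¬ 3 ∣ 3 * N + j by omega), if_pos (show 3 ∣ 4 * N + j by omega)]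
      push_cast
      have e1' : (1 + (N : ℚ) / j) ≠ 0 := by positivity
      have e3' : 1 + 4 * ((N : ℚ) / j) ≠ 0 := by positivity
      field_simp
      ring
    · have hm2 : 3 ∣ 2 * N + j := by
        have k1 : N % 3 = 1 ∨ N % 3 = 2 := by omega
        have k2 : j % 3 = 1 ∨ j % 3 = 2 := by omega
        rcases k1 with k1 | k1 <;> rcases k2 with k2 | k2 <;> omega
      rw [if_neg h0, if_neg h1, if_neg (show ¬ 3 ∣ 0 * N + j by omega),
        if_neg (show ¬ 3 ∣ 1 * N + j by omega), if_pos hm2,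
        if_neg (show ¬ 3 ∣ 3 * N + j by omega), if_neg (show ¬ 3 ∣ 4 * N + j by omega)]
      push_cast
      have e1' : (1 + 2 * ((N : ℚ) / j)) ≠ 0 := by positivity
      field_simp
      ring

theorem prod_xf {p N : ℕ} (hN : ¬ 3 ∣ N) :
    ∏ j ∈ J p N, xf N j = A p N 1 * A p N 2 * A p N 3 /
      (B p N 0 * B p N 1 ^ 2 * B p N 2 ^ 3 * B p N 3 ^ 2 * B p N 4) := by
  unfold A B
  simp only [← prod_mul_distrib, ← prod_pow, ← prod_div_distrib]
  refine prod_congr rfl fun j hj => xf_eq hN ?_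
  rcases Nat.eq_zero_or_pos j with h | h
  · subst h
    exact absurd (dvd_zero p) (mem_filter.1 hj).2
  · exact h

theorem t_A2 : S_A2 := by
  intro p N' hp h3 hN' h3N'
  have hp0 : 0 < p := hp.pos
  have hpQ : (p : ℚ) ≠ 0 := by exact_mod_cast hp0.ne'
  set N := p * N' with hN
  have hpN : p ∣ N := ⟨N', hN⟩
  have h3N : ¬ 3 ∣ N := by
    rw [hN, Nat.Prime.dvd_mul Nat.prime_three]
    rintro (h | h)
    · rw [Nat.prime_dvd_prime_iff_eq Nat.prime_three hp] at h; omega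
    · exact h3N' h
  have hdiv : ∀ s : ℕ, s * N / 3 / p = s * N' / 3 := by
    intro s
    rw [Nat.div_div_eq_div_mul, hN, show s * (p * N') = (s * N') * p by ring,
      Nat.mul_div_mul_right _ _ hp0]
  have hdiv' : ∀ s : ℕ, s * N / p = s * N' := by
    intro s
    rw [hN, show s * (p * N') = (s * N') * p by ring, Nat.mul_div_cancel _ hp0]
  have hfac : ∀ s : ℕ, ((s * N / 3)! : ℚ) = (p : ℚ) ^ (s * N' / 3) * ((s * N' / 3)! : ℚ) *
      F p (s * N / 3) := by
    intro s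
    have := fact_eq (p := p) (s * N / 3)
    rwa [hdiv] at this
  have hfac' : ∀ s : ℕ, ((s * N)! : ℚ) = (p : ℚ) ^ (s * N') * ((s * N')! : ℚ) *
      ∏ t ∈ range s, A p N t := by
    intro s
    have := fact_eq (p := p) (s * N)
    rwa [hdiv', F_block hpN] at this
  have hPs : ∀ s : ℕ, (∏ t ∈ range s, B p N t) * (3 : ℚ) ^ (s * N' / 3) =
      (3 : ℚ) ^ (s * N / 3) * F p (s * N / 3) := by
    intro s
    have := P_eq hp h3 (s * N)
    rwa [hdiv, P_block hpN] at this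
  have hA : ∀ t, A p N t ≠ 0 := by
    intro t
    unfold A
    refine prod_ne_zero_iff.2 fun j hj => ?_
    have hj0 : j ≠ 0 := by
      rintro rfl
      exact (mem_filter.1 hj).2 (dvd_zero p)
    exact_mod_cast (show t * N + j ≠ 0 by omega)
  have hB : ∀ t, B p N t ≠ 0 := by
    intro t
    unfold B
    refine prod_ne_zero_iff.2 fun j hj => ?_
    have hj0 : j ≠ 0 := by
      rintro rfl
      exact (mem_filter.1 hj).2 (dvd_zero p)
    unfold b
    split_ifs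
    · exact_mod_cast (show t * N + j ≠ 0 by omega)
    · exact one_ne_zero
  have hFn : ∀ s, F p (s * N / 3) ≠ 0 := fun s => F_ne _
  -- the equations
  have f1 := hfac 1
  have f2 := hfac 2
  have f4 := hfac 4
  have f5 := hfac 5
  have g1 := hfac' 1
  have g4 := hfac' 4
  have q1 := hPs 1
  have q2 := hPs 2
  have q3 := hPs 3
  have q4 := hPs 4
  have q5 := hPs 5
  have hF3 : F p (3 * N / 3) = A p N 0 := by
    rw [show 3 * N / 3 = 1 * N by omega, F_block hpN]; simp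
  rw [hF3, show 3 * N / 3 = N by omega, show 3 * N' / 3 = N' by omega] at q3
  simp only [prod_range_succ, prod_range_zero, one_mul] at f1 g1 g4 q1 q2 q3 q4 q5
  have hJ : (range N).filter (fun j => ¬ p ∣ j) = J p N := rfl
  rw [hJ, prod_xf h3N]
  have hFn1 := hFn 1
  have hFn2 := hFn 2
  have hFn4 := hFn 4
  have hFn5 := hFn 5
  rw [one_mul] at hFn1
  -- powers
  have R1 : (p : ℚ) ^ (4 * N') * (p : ℚ) ^ (N' / 3) * (p : ℚ) ^ (2 * N' / 3) =
      ((p : ℚ) ^ N') ^ 2 * (p : ℚ) ^ (4 * N' / 3) * (p : ℚ) ^ (5 * N' / 3) := by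
    rw [← pow_mul, ← pow_add, ← pow_add, ← pow_add, ← pow_add]
    congr 1
    omega
  have R2 : (3 : ℚ) ^ (N' / 3) * (3 : ℚ) ^ (2 * N' / 3) * ((3 : ℚ) ^ N') ^ 2 =
      (3 : ℚ) ^ (4 * N' / 3) * (3 : ℚ) ^ (5 * N' / 3) := by
    rw [← pow_mul, ← pow_add, ← pow_add, ← pow_add]
    congr 1
    omega
  have R3 : (3 : ℚ) ^ (N / 3) * (3 : ℚ) ^ (2 * N / 3) * ((3 : ℚ) ^ N) ^ 2 =
      (3 : ℚ) ^ (4 * N / 3) * (3 : ℚ) ^ (5 * N / 3) := by
    rw [← pow_mul, ← pow_add, ← pow_add, ← pow_add]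
    congr 1
    omega
  have h27 : (27 : ℚ) = 3 ^ 3 := by norm_num
  have R4 : (27 : ℚ) ^ N = ((3 : ℚ) ^ N) ^ 3 := by
    rw [h27, ← pow_mul, ← pow_mul, mul_comm 3 N]
  have R5 : (27 : ℚ) ^ N' = ((3 : ℚ) ^ N') ^ 3 := by
    rw [h27, ← pow_mul, ← pow_mul, mul_comm 3 N']
  have hNc : (N : ℚ) = p * N' := by rw [hN]; push_cast; ring
  have key1 : F p (N / 3) * F p (2 * N / 3) / (F p (4 * N / 3) * F p (5 * N / 3)) =
      (B p N 0 * (B p N 0 * B p N 1)) / ((B p N 0 * B p N 1 * B p N 2 * B p N 3) *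
        (B p N 0 * B p N 1 * B p N 2 * B p N 3 * B p N 4)) * ((3 : ℚ) ^ N / 3 ^ N') ^ 2 := by
    have hs1 : F p (N / 3) = B p N 0 * (3 : ℚ) ^ (N' / 3) / (3 : ℚ) ^ (N / 3) := by
      rw [eq_div_iff (by positivity), q1]; ring
    have hs2 : F p (2 * N / 3) = B p N 0 * B p N 1 * (3 : ℚ) ^ (2 * N' / 3) / (3 : ℚ) ^ (2 * N / 3) := by
      rw [eq_div_iff (by positivity), q2]; ring
    have hs4 : F p (4 * N / 3) = B p N 0 * B p N 1 * B p N 2 * B p N 3 * (3 : ℚ) ^ (4 * N' / 3) /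
        (3 : ℚ) ^ (4 * N / 3) := by
      rw [eq_div_iff (by positivity), q4]; ring
    have hs5 : F p (5 * N / 3) = B p N 0 * B p N 1 * B p N 2 * B p N 3 * B p N 4 *
        (3 : ℚ) ^ (5 * N' / 3) / (3 : ℚ) ^ (5 * N / 3) := by
      rw [eq_div_iff (by positivity), q5]; ring
    have e3 : ((3 : ℚ) ^ N / 3 ^ N') ^ 2 =
        ((3 : ℚ) ^ (N' / 3) * (3 : ℚ) ^ (2 * N' / 3) / ((3 : ℚ) ^ (4 * N' / 3) * (3 : ℚ) ^ (5 * N' / 3))) *
        ((3 : ℚ) ^ (4 * N / 3) * (3 : ℚ) ^ (5 * N / 3) / ((3 : ℚ) ^ (N / 3) * (3 : ℚ) ^ (2 * N / 3))) := by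
      rw [← R2, ← R3]
      have t1 : (3 : ℚ) ^ N ≠ 0 := by positivity
      have t2 : (3 : ℚ) ^ N' ≠ 0 := by positivity
      have t3 : (3 : ℚ) ^ (N' / 3) ≠ 0 := by positivity
      have t4 : (3 : ℚ) ^ (2 * N' / 3) ≠ 0 := by positivity
      have t5 : (3 : ℚ) ^ (N / 3) ≠ 0 := by positivity
      have t6 : (3 : ℚ) ^ (2 * N / 3) ≠ 0 := by positivity
      generalize (3 : ℚ) ^ N = x1 at *
      generalize (3 : ℚ) ^ N' = x2 at *
      generalize (3 : ℚ) ^ (N' / 3) = x3 at *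
      generalize (3 : ℚ) ^ (2 * N' / 3) = x4 at *
      generalize (3 : ℚ) ^ (N / 3) = x5 at *
      generalize (3 : ℚ) ^ (2 * N / 3) = x6 at *
      field_simp
    rw [hs1, hs2, hs4, hs5, e3]
    have t3 : (3 : ℚ) ^ (N' / 3) ≠ 0 := by positivity
    have t4 : (3 : ℚ) ^ (2 * N' / 3) ≠ 0 := by positivity
    have t5 : (3 : ℚ) ^ (N / 3) ≠ 0 := by positivity
    have t6 : (3 : ℚ) ^ (2 * N / 3) ≠ 0 := by positivity
    have t7 : (3 : ℚ) ^ (4 * N' / 3) ≠ 0 := by positivity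
    have t8 : (3 : ℚ) ^ (5 * N' / 3) ≠ 0 := by positivity
    have t9 : (3 : ℚ) ^ (4 * N / 3) ≠ 0 := by positivity
    have t10 : (3 : ℚ) ^ (5 * N / 3) ≠ 0 := by positivity
    have b0 := hB 0
    have b1 := hB 1
    have b2 := hB 2
    have b3 := hB 3
    have b4 := hB 4
    clear hs1 hs2 hs4 hs5 e3 q1 q2 q3 q4 q5 R1 R2 R3 R4 R5 f1 f2 f4 f5 g1 g4
    generalize (3 : ℚ) ^ (N' / 3) = x3 at *
    generalize (3 : ℚ) ^ (2 * N' / 3) = x4 at *
    generalize (3 : ℚ) ^ (N / 3) = x5 at *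
    generalize (3 : ℚ) ^ (2 * N / 3) = x6 at *
    generalize (3 : ℚ) ^ (4 * N' / 3) = x7 at *
    generalize (3 : ℚ) ^ (5 * N' / 3) = x8 at *
    generalize (3 : ℚ) ^ (4 * N / 3) = x9 at *
    generalize (3 : ℚ) ^ (5 * N / 3) = x10 at *
    generalize B p N 0 = y0 at *
    generalize B p N 1 = y1 at *
    generalize B p N 2 = y2 at *
    generalize B p N 3 = y3 at *
    generalize B p N 4 = y4 at *
    field_simp
  have key2 : A p N 0 = B p N 0 * B p N 1 * B p N 2 * ((3 : ℚ) ^ N' / 3 ^ N) := by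
    rw [mul_div_assoc', eq_div_iff (by positivity), q3]; ring
  have key3 : (p : ℚ) ^ (4 * N') * (p : ℚ) ^ (N' / 3) * (p : ℚ) ^ (2 * N' / 3) /
      (((p : ℚ) ^ N') ^ 2 * (p : ℚ) ^ (4 * N' / 3) * (p : ℚ) ^ (5 * N' / 3)) = 1 := by
    rw [R1]
    exact div_self (by positivity)
  have step : KK N = p * KK N' *
      ((p : ℚ) ^ (4 * N') * (p : ℚ) ^ (N' / 3) * (p : ℚ) ^ (2 * N' / 3) /
      (((p : ℚ) ^ N') ^ 2 * (p : ℚ) ^ (4 * N' / 3) * (p : ℚ) ^ (5 * N' / 3))) *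
      ((3 : ℚ) ^ N' / 3 ^ N) ^ 3 * (A p N 1 * A p N 2 * A p N 3 / A p N 0) *
      (F p (N / 3) * F p (2 * N / 3) / (F p (4 * N / 3) * F p (5 * N / 3))) := by
    unfold KK
    rw [f1, f2, f4, f5, g1, g4, R4, R5, hNc]
    have a0 := hA 0
    have a1 := hA 1
    have a2 := hA 2
    have a3 := hA 3
    have z1 : ((N')! : ℚ) ≠ 0 := by positivity
    have z2 : ((4 * N' / 3)! : ℚ) ≠ 0 := by positivity
    have z3 : ((5 * N' / 3)! : ℚ) ≠ 0 := by positivity
    have w1 : (p : ℚ) ^ N' ≠ 0 := pow_ne_zero _ hpQ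
    have w2 : (p : ℚ) ^ (4 * N' / 3) ≠ 0 := pow_ne_zero _ hpQ
    have w3 : (p : ℚ) ^ (5 * N' / 3) ≠ 0 := pow_ne_zero _ hpQ
    have v1 : (3 : ℚ) ^ N ≠ 0 := by positivity
    have v2 : (3 : ℚ) ^ N' ≠ 0 := by positivity
    clear q1 q2 q3 q4 q5 R1 R2 R3 R4 R5 f1 f2 f4 f5 g1 g4 key1 key2 key3
    generalize (p : ℚ) ^ N' = x1 at *
    generalize (p : ℚ) ^ (4 * N' / 3) = x2 at *
    generalize (p : ℚ) ^ (5 * N' / 3) = x3 at *
    generalize (p : ℚ) ^ (4 * N') = x4 at *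
    generalize (p : ℚ) ^ (N' / 3) = x5 at *
    generalize (p : ℚ) ^ (2 * N' / 3) = x6 at *
    generalize (3 : ℚ) ^ N = x7 at *
    generalize (3 : ℚ) ^ N' = x8 at *
    generalize ((N')! : ℚ) = x9 at *
    generalize ((4 * N' / 3)! : ℚ) = x10 at *
    generalize ((5 * N' / 3)! : ℚ) = x11 at *
    generalize ((4 * N')! : ℚ) = x12 at *
    generalize ((N' / 3)! : ℚ) = x13 at *
    generalize ((2 * N' / 3)! : ℚ) = x14 at *
    generalize A p N 0 = y0 at *
    generalize A p N 1 = y1 at *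
    generalize A p N 2 = y2 at *
    generalize A p N 3 = y3 at *
    generalize F p (N / 3) = u1 at *
    generalize F p (2 * N / 3) = u2 at *
    generalize F p (4 * N / 3) = u3 at *
    generalize F p (5 * N / 3) = u4 at *
    field_simp
  rw [step, key3, key1, key2]
  have v1 : (3 : ℚ) ^ N ≠ 0 := by positivity
  have v2 : (3 : ℚ) ^ N' ≠ 0 := by positivity
  have b0 := hB 0
  have b1 := hB 1
  have b2 := hB 2
  have b3 := hB 3
  have b4 := hB 4
  clear q1 q2 q3 q4 q5 R1 R2 R3 R4 R5 f1 f2 f4 f5 g1 g4 key1 key2 key3 step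
  generalize (3 : ℚ) ^ N = x7 at *
  generalize (3 : ℚ) ^ N' = x8 at *
  generalize B p N 0 = y0 at *
  generalize B p N 1 = y1 at *
  generalize B p N 2 = y2 at *
  generalize B p N 3 = y3 at *
  generalize B p N 4 = y4 at *
  field_simp

end Pool.Agent.H196.SUN35.A2

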